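import Pool.Agent.W2helper75.FD.Stm3
import Pool.Agent.W2helper82.FD.Nret

/-!
# Project FD, piece NR3: with positive probability the walk never returns to the window
-/

set_option autoImplicit false

open MeasureTheory ProbabilityTheory Filter Topology
open scoped ENNReal NNReal

namespace Pool.Agent.W2helper12.FD

open Pool.Agent.W2helper75.FD Pool.Agent.W2helper19.FD Pool.Agent.W2helper82.FD

/-- the first `n` letters of `c`, then `d` -/
def cat {S : Type} (n : ℕ) (c d : ℕ → S) : ℕ → S := fun i => if i < n then c i else d (i - n)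

lemma cat_zero {S : Type} (c d : ℕ → S) : cat 0 c d = d := by
  funext i
  simp [cat]

lemma cat_succ {S : Type} (n : ℕ) (c d : ℕ → S) :
    cat (n + 1) c d = cns (c 0, cat n (fun i => c (i + 1)) d) := by
  funext i
  cases i with
  | zero => simp [cat]
  | succ i => simp [cat]

lemma cat_pos {S : Type} [Fintype S] [Nonempty S] [MeasurableSpace S] [DiscreteMeasurableSpace S]
    (n : ℕ) : ∀ (c : ℕ → S) (E : Set (ℕ → S)), MeasurableSet E →
      mlaw S {d | cat n c d ∈ E} ≠ 0 → mlaw S E ≠ 0 := by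
  induction n with
  | zero =>
    intro c E hE h
    have e : {d | cat 0 c d ∈ E} = E := by
      ext d
      rw [Set.mem_ofPred_eq, cat_zero]
    rwa [e] at h
  | succ n ih =>
    intro c E hE h h0
    have hEs : MeasurableSet {d : ℕ → S | cns (c 0, d) ∈ E} :=
      (measurable_cns.comp measurable_prodMk_left) hE
    have h1 := ih (fun i => c (i + 1)) {d | cns (c 0, d) ∈ E} hEs (by
      have e : {d | cat n (fun i => c (i + 1)) d ∈ {d : ℕ → S | cns (c 0, d) ∈ E}} =
          {d | cat (n + 1) c d ∈ E} := by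
        ext d
        simp only [Set.mem_ofPred_eq, cat_succ]
      rw [e]
      exact h)
    rw [split _ hE] at h0
    have h2 := (mul_eq_zero.1 h0).resolve_left card_inv_ne
    exact h1 ((Finset.sum_eq_zero_iff.1 h2) (c 0) (Finset.mem_univ _))

section

variable {Γ : Type} [Group Γ] {S : Finset Γ}

lemma pos_cat_le (n : ℕ) (c d : ℕ → S) (j : ℕ) (hj : j ≤ n) : pos (cat n c d) j = pos c j := by
  induction j with
  | zero => rfl
  | succ j ih =>
    rw [pos_succ, pos_succ, ih (by omega)]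
    have : cat n c d j = c j := if_pos (by omega)
    rw [this]

lemma pos_cat_add (n : ℕ) (c d : ℕ → S) (j : ℕ) :
    pos (cat n c d) (n + j) = pos c n * pos d j := by
  induction j with
  | zero => rw [Nat.add_zero, pos_cat_le n c d n le_rfl, pos_zero, mul_one]
  | succ j ih =>
    rw [← Nat.add_assoc, pos_succ, pos_succ, ih]
    have : cat n c d (n + j) = d j := by
      unfold cat
      rw [if_neg (by omega)]
      congr 1
      omega
    rw [this, mul_assoc]

lemma pos_shift (c : ℕ → S) (a j : ℕ) :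
    pos (fun i => c (a + i)) j = (pos c a)⁻¹ * pos c (a + j) := by
  induction j with
  | zero => rw [pos_zero, Nat.add_zero, inv_mul_cancel]
  | succ j ih => rw [pos_succ, ih, ← Nat.add_assoc, pos_succ, mul_assoc]

lemma exists_pos (hsym : ∀ s ∈ S, s⁻¹ ∈ S) (hgen : Subgroup.closure (S : Set Γ) = ⊤) [Nonempty S]
    (g : Γ) : ∃ (n : ℕ) (c : ℕ → S), pos c n = g := by
  have hg : g ∈ Subgroup.closure (S : Set Γ) := by rw [hgen]; trivial
  induction hg using Subgroup.closure_induction_right with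
  | one => exact ⟨0, fun _ => Classical.arbitrary _, rfl⟩
  | mul_right x hx s hs ih =>
    obtain ⟨n, c, hc⟩ := ih
    refine ⟨n + 1, cat n c fun _ => ⟨s, hs⟩, ?_⟩
    rw [pos_cat_add, hc, pos_succ, pos_zero, one_mul]
  | mul_inv_cancel x hx s hs ih =>
    obtain ⟨n, c, hc⟩ := ih
    refine ⟨n + 1, cat n c fun _ => ⟨s⁻¹, hsym s hs⟩, ?_⟩
    rw [pos_cat_add, hc, pos_succ, pos_zero, one_mul]

/-- periodic sequences -/
lemma pos_periodic (w : ℕ → S) (l : ℕ) (i : ℕ) : ∀ r ≤ l,
    pos (fun j => w (j % l)) (i * l + r) = (pos w l) ^ i * pos w r := by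
  induction i with
  | zero =>
    intro r
    induction r with
    | zero => intro _; simp [pos_zero]
    | succ r ih =>
      intro hr
      rw [← Nat.add_assoc, pos_succ, ih (by omega), pos_succ, mul_assoc]
      congr 4
      rw [Nat.zero_mul, Nat.zero_add]
      exact Nat.mod_eq_of_lt (by omega)
  | succ i ihi =>
    intro r
    induction r with
    | zero =>
      intro _
      have h := ihi l le_rfl
      rw [Nat.add_zero, Nat.succ_mul, h, pos_zero, mul_one, pow_succ]
    | succ r ih =>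
      intro hr
      rw [← Nat.add_assoc, pos_succ, ih (by omega), pos_succ, mul_assoc]
      congr 4
      rw [Nat.add_comm, Nat.add_mul_mod_self_right]
      exact Nat.mod_eq_of_lt (by omega)

end

theorem nr3 : P_NR3 := by
  intro Γ _ S _ _ _ H h b θ D t hs hfin R
  have hone : h 1 = 0 := by
    have := hs.h_mul 1 H.one_mem 1
    rw [mul_one] at this
    omega
  have hinv : ∀ x ∈ H, h x⁻¹ = -h x := by
    intro x hx
    have h1 := hs.h_mul x hx x⁻¹
    rw [mul_inv_cancel, hone] at h1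
    omega
  have htpow : ∀ m : ℕ, t ^ m ∈ H := fun m => H.pow_mem hs.t_mem m
  have hht : ∀ m : ℕ, h (t ^ m) = m := by
    intro m
    induction m with
    | zero => rw [pow_zero, hone]; rfl
    | succ m ih => rw [pow_succ', hs.h_mul t hs.t_mem, ih, hs.ht]; push_cast; ring
  have hbt : ∀ (m : ℕ) (g : Γ), b (t ^ m * g) ≤ b g := by
    intro m g
    induction m with
    | zero => rw [pow_zero, one_mul]
    | succ m ih =>
      rw [pow_succ', mul_assoc]
      have h1 := hs.b_mul t hs.t_mem (t ^ m * g)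
      rw [hs.bt, hs.ht, zpow_one, zero_add] at h1
      have h2 : θ * b (t ^ m * g) ≤ 1 * b (t ^ m * g) :=
        mul_le_mul_of_nonneg_right hs.θ1.le (hs.b_nonneg _)
      linarith
  -- the word for `t⁻¹`
  obtain ⟨l, w, hw⟩ := exists_pos hs.sym hs.gen t⁻¹
  have hl : 0 < l := by
    rw [Nat.pos_iff_ne_zero]
    rintro rfl
    rw [pos_zero] at hw
    have h1 := hinv t hs.t_mem
    rw [← hw, hone, hs.ht] at h1
    omega
  set c₀ : ℕ → S := fun j => w (j % l) with hc₀
  have hper : ∀ i : ℕ, ∀ r ≤ l, pos c₀ (i * l + r) = (t ^ i)⁻¹ * pos w r := by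
    intro i r hr
    rw [hc₀, pos_periodic w l i r hr, hw, inv_pow]
  -- heights are negative from some time on
  obtain ⟨P, hP⟩ : ∃ P : ℤ, ∀ r < l, h (pos w r) < P := by
    obtain ⟨P, hP⟩ := ((Finset.range l).image fun r => h (pos w r)).exists_le
    exact ⟨P + 1, fun r hr => by
      have := hP (h (pos w r)) (Finset.mem_image_of_mem _ (Finset.mem_range.2 hr))
      omega⟩
  have hbd : ∃ N : ℕ, ∀ n, (pos c₀ n ∈ H ∧ 0 ≤ h (pos c₀ n)) → n ≤ N := by
    refine ⟨P.toNat * l + l, fun n hn => ?_⟩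
    by_contra hlt
    rw [not_le] at hlt
    have h1 : n = (n / l) * l + n % l := by
      rw [Nat.mul_comm]; exact (Nat.div_add_mod n l).symm
    have h2 : n % l < l := Nat.mod_lt _ hl
    have h3 : P.toNat ≤ n / l := by
      rw [Nat.le_div_iff_mul_le hl]
      omega
    have h4 := hn.2
    rw [h1, hper _ _ h2.le, hs.h_mul _ (H.inv_mem (htpow _)), hinv _ (htpow _), hht] at h4
    have h5 := hP _ h2
    omega
  obtain ⟨N, hN⟩ := hbd
  -- the last time with nonnegative height in `H`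
  obtain ⟨n₁, ⟨hn₁, hn₁h⟩, hlast⟩ : ∃ n₁, (pos c₀ n₁ ∈ H ∧ 0 ≤ h (pos c₀ n₁)) ∧
      ∀ n, n₁ < n → ¬ (pos c₀ n ∈ H ∧ 0 ≤ h (pos c₀ n)) := by
    classical
    have hex : ∃ n ≤ N, pos c₀ n ∈ H ∧ 0 ≤ h (pos c₀ n) :=
      ⟨0, Nat.zero_le _, by rw [pos_zero]; exact H.one_mem, by rw [pos_zero, hone]⟩
    obtain ⟨n, hn, hn'⟩ := hex
    refine ⟨Nat.findGreatest (fun n => pos c₀ n ∈ H ∧ 0 ≤ h (pos c₀ n)) N,
      Nat.findGreatest_spec (P := fun n => pos c₀ n ∈ H ∧ 0 ≤ h (pos c₀ n)) hn hn', ?_⟩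
    intro m hm hmP
    exact absurd (Nat.le_findGreatest (hN m hmP) hmP) (not_le.2 hm)
  set g₁ := pos c₀ n₁ with hg₁
  obtain ⟨k, hk⟩ := hfin (b g₁ + R) (1 / 2) (by norm_num)
  set m : ℕ := n₁ + D * k + 1 with hm
  -- the path
  set N₁ : ℕ := m * l - n₁ with hN₁
  have hml : n₁ ≤ m * l := by
    calc n₁ ≤ m := by omega
      _ = m * 1 := (Nat.mul_one m).symm
      _ ≤ m * l := Nat.mul_le_mul_left m hl
  set c₁ : ℕ → S := fun i => c₀ (n₁ + i) with hc₁
  set x₁ : Γ := g₁⁻¹ * (t ^ m)⁻¹ with hx₁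
  have hx₁c : pos c₁ N₁ = x₁ := by
    rw [hc₁, pos_shift, ← hg₁, hx₁]
    have e : n₁ + N₁ = m * l + 0 := by omega
    rw [e, hper m 0 (Nat.zero_le _), pos_zero, mul_one]
  have hx₁H : x₁ ∈ H := H.mul_mem (H.inv_mem hn₁) (H.inv_mem (htpow m))
  have hx₁h : h x₁ ≤ -m := by
    rw [hx₁, hs.h_mul _ (H.inv_mem hn₁), hinv _ hn₁, hinv _ (htpow m), hht]
    omega
  have hx₁b : b x₁⁻¹ ≤ b g₁ := by
    rw [hx₁, mul_inv_rev, inv_inv, inv_inv]
    exact hbt m g₁
  -- heights along short paths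
  have hstep : ∀ (c : ℕ → S) (j : ℕ), h (pos c j) ≤ D * j := by
    intro c j
    induction j with
    | zero => rw [pos_zero, hone]; simp
    | succ j ih =>
      have h1 := hs.h_step (pos c j) (c j) (c j).2
      rw [pos_succ]
      have h2 := le_abs_self (h (pos c j * (c j : Γ)) - h (pos c j))
      push_cast
      linarith
  -- the event
  have hmE : MeasurableSet {c : ℕ → S | ∀ n, 1 ≤ n → pos c n ∉ MW H h b R} := by
    have e : {c : ℕ → S | ∀ n, 1 ≤ n → pos c n ∉ MW H h b R} =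
        ⋂ n, ⋂ _ : 1 ≤ n, {c : ℕ → S | pos c n ∈ (MW H h b R)ᶜ} := by
      ext c
      simp
    rw [e]
    exact MeasurableSet.iInter fun n => MeasurableSet.iInter fun _ => meas_pos n _
  refine cat_pos N₁ c₁ _ hmE ?_
  have hsub : {c : ℕ → S | ∃ n, k ≤ n ∧ pos c n ∈ MW H h b (b g₁ + R)}ᶜ ⊆
      {d : ℕ → S | cat N₁ c₁ d ∈ {c : ℕ → S | ∀ n, 1 ≤ n → pos c n ∉ MW H h b R}} := by
    intro d hd n hn hmem
    rcases le_or_gt n N₁ with hle | hgt
    · rw [pos_cat_le _ _ _ _ hle, hc₁, pos_shift, ← hg₁] at hmem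
      obtain ⟨h1, h2, -⟩ := hmem
      refine hlast (n₁ + n) (by omega) ⟨?_, ?_⟩
      · have h3 := H.mul_mem hn₁ h1
        rwa [mul_inv_cancel_left] at h3
      · rw [hs.h_mul _ (H.inv_mem hn₁), hinv _ hn₁] at h2
        omega
    · obtain ⟨j, rfl⟩ := Nat.exists_eq_add_of_le hgt.le
      rw [pos_cat_add, hx₁c] at hmem
      obtain ⟨h1, h2, h3⟩ := hmem
      rw [hs.h_mul _ hx₁H] at h2
      have h4 : pos d j ∈ H := by
        have h5 := H.mul_mem (H.inv_mem hx₁H) h1
        rwa [inv_mul_cancel_left] at h5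
      rcases lt_or_ge j k with hjk | hjk
      · have h5 := hstep d j
        have h6 : (D : ℤ) * j ≤ D * k := by
          have : (j : ℤ) ≤ k := by exact_mod_cast hjk.le
          exact mul_le_mul_of_nonneg_left this (by positivity)
        have h7 : (m : ℤ) = n₁ + D * k + 1 := by rw [hm]; push_cast; ring
        omega
      · apply hd
        refine ⟨j, hjk, h4, by omega, ?_⟩
        have h5 := hs.b_mul x₁⁻¹ (H.inv_mem hx₁H) (x₁ * pos d j)
        rw [inv_mul_cancel_left, hinv _ hx₁H] at h5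
        have h6 : θ ^ (-h x₁) ≤ 1 := by
          obtain ⟨q, hq⟩ := Int.eq_ofNat_of_zero_le (show 0 ≤ -h x₁ by omega)
          rw [hq, zpow_natCast]
          exact pow_le_one₀ hs.θ0.le hs.θ1.le
        have h7 : θ ^ (-h x₁) * b (x₁ * pos d j) ≤ 1 * b (x₁ * pos d j) :=
          mul_le_mul_of_nonneg_right h6 (hs.b_nonneg _)
        linarith
  intro h0
  have h1 : mlaw S {c : ℕ → S | ∃ n, k ≤ n ∧ pos c n ∈ MW H h b (b g₁ + R)}ᶜ = 0 :=
    measure_mono_null hsub h0
  have hmE' : MeasurableSet {c : ℕ → S | ∃ n, k ≤ n ∧ pos c n ∈ MW H h b (b g₁ + R)} := by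
    have e : {c : ℕ → S | ∃ n, k ≤ n ∧ pos c n ∈ MW H h b (b g₁ + R)} =
        ⋃ n, ⋃ _ : k ≤ n, {c : ℕ → S | pos c n ∈ MW H h b (b g₁ + R)} := by
      ext c
      simp
    rw [e]
    exact MeasurableSet.iUnion fun n => MeasurableSet.iUnion fun _ => meas_pos n _
  rw [prob_compl_eq_zero_iff hmE'] at h1
  rw [h1] at hk
  have h2 : (1 / 2 : ℝ≥0∞) < 1 := by
    rw [one_div]
    exact ENNReal.one_half_lt_one
  exact absurd hk (not_le.2 h2)

end Pool.Agent.W2helper12.FD
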